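import Mathlib
import Pool.Agent.Lib.MP_9ca4ac_an.Concl
import Pool.Agent.Lib.MP_9ca4ac_an.Sphere
import Pool.Agent.Lib.MP_9ca4ac_an.Discrete
import Pool.Agent.Lib.MP_9ca4ac_an.Unique

open MeasureTheory Metric Set Filter Topology TopologicalSpace
open scoped ContDiff ENNReal NNReal Distributions
open Pool.Agent.Lib.MP_9ca4ac_an

noncomputable section

namespace Pool.Agent.Results.MP_9ca4ac_an.GreenUnbounded

/-- For all integers `m > 2` and `n ≥ 2m + 3` and every constant `C` there is a bounded open set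
`Ω ⊆ ℝⁿ` such that every Green function `G` of the Dirichlet problem for `(-Δ)^m` in `Ω` satisfies
`|G x y| > C |x - y|^(2m-n)` for some distinct `x, y` in `Ω`. Moreover there are a test function `f`
on `Ω` and a ball in `Ω` on which the unique solution `u` of the Dirichlet problem
`(-Δ)^m u = f` satisfies `|u x| > C ∫ |x - y|^(2m-n) |f y| dy`. -/
theorem result (m n : ℕ) (hm : 2 < m) (hn : 2 * m + 3 ≤ n) (C : ℝ) :
    ∃ Ω : Opens (EuclideanSpace ℝ (Fin n)),
      Bornology.IsBounded (Ω : Set (EuclideanSpace ℝ (Fin n))) ∧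
      (∀ G : EuclideanSpace ℝ (Fin n) → EuclideanSpace ℝ (Fin n) → ℝ, IsGreen m Ω G →
        ∃ x ∈ Ω, ∃ y ∈ Ω, x ≠ y ∧ C * ‖x - y‖ ^ (2 * (m : ℤ) - n) < |G x y|) ∧
      (∃ (f : 𝓓(Ω, ℝ)) (u : EuclideanSpace ℝ (Fin n) → ℝ) (x₀ : EuclideanSpace ℝ (Fin n)) (r : ℝ),
        IsSol m Ω f u ∧
        (∀ v, IsSol m Ω f v →
          v =ᵐ[volume.restrict (Ω : Set (EuclideanSpace ℝ (Fin n)))] u) ∧
        0 < r ∧ ball x₀ r ⊆ (Ω : Set (EuclideanSpace ℝ (Fin n))) ∧
        ∀ x ∈ ball x₀ r, C * ∫ y in (Ω : Set (EuclideanSpace ℝ (Fin n))),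
          ‖x - y‖ ^ (2 * (m : ℤ) - n) * |f y| < |u x|) := by
  obtain ⟨g1, hg0, hg1, H⟩ := sphere_bound (m := m) (n := n) (by omega) hn
  exact final_of (by omega) hn (exists_discrete (by omega) hn hg0 hg1 H)
    (fun Ω hΩ u v hu hv h => unique_weak (by omega) (by omega) hΩ hu hv h) C

end Pool.Agent.Results.MP_9ca4ac_an.GreenUnbounded
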